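import Pool.Agent.H6.MS.RedDefs

set_option autoImplicit false

open Filter Topology

namespace Pool.Agent.H6.MS

variable {n : ℕ}

namespace REDB

lemma red_add (L : ℕ) (x y : Q) : red L (x + y) = red L x + red L y := by
  simp [red]

lemma fX_trans {p : ℕ} (V : Fin n → AddSubgroup Q) (f : Fin n → Q → ZMod p)
    (hf : ∀ i q v, v ∈ V i → f i (q + v) = f i q) (q x : Q) (j : X V) :
    fX f q (trans V x j) = fX f (q + x) j := by
  rcases j with _ | ⟨i, c⟩
  · rfl
  · rw [trans_some]
    show f i (Quotient.out ((x : Q ⧸ V i) + c) + q) = f i (Quotient.out c + (q + x))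
    have h1 : ((Quotient.out ((x : Q ⧸ V i) + c) : Q) : Q ⧸ V i) =
        ((x + Quotient.out c : Q) : Q ⧸ V i) := by
      rw [QuotientAddGroup.mk_add]
      have h2 : ((Quotient.out c : Q) : Q ⧸ V i) = c := Quotient.out_eq' c
      have h3 : ((Quotient.out ((x : Q ⧸ V i) + c) : Q) : Q ⧸ V i) = (x : Q ⧸ V i) + c :=
        Quotient.out_eq' _
      rw [h2, h3]
    have h4 := (QuotientAddGroup.eq (s := V i)).1 h1
    have h5 := hf i (Quotient.out ((x : Q ⧸ V i) + c) + q) _ h4
    rw [← h5]
    congr 1
    abel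

lemma xi_domCongr {p : ℕ} (V : Fin n → AddSubgroup Q) (f : Fin n → Q → ZMod p)
    (hf : ∀ i q v, v ∈ V i → f i (q + v) = f i q) (q x : Q) (m : X V →₀ ZMod p) :
    xi V f q (Finsupp.domCongr (trans V x) m) = xi V f (q + x) m := by
  induction m using Finsupp.induction_linear with
  | zero => simp
  | add a b ha hb => rw [map_add, map_add, map_add, ha, hb]
  | single j c =>
    have e1 : Finsupp.domCongr (trans V x) (Finsupp.single j c) =
        Finsupp.single (trans V x j) c := by
      simp [Finsupp.domCongr_apply, Finsupp.equivMapDomain_single]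
    rw [e1]
    unfold xi
    rw [Finsupp.linearCombination_single, Finsupp.linearCombination_single, fX_trans V f hf]

/-- the residues for which the addition of `x` wraps around -/
def bad (L : ℕ) (x : ℤ) : Set (ZMod L) := {a | ((a + (x : ZMod L)).val : ℤ) ≠ a.val + x}

lemma bad_card (L : ℕ) [NeZero L] (x : ℤ) : (bad L x).ncard ≤ x.natAbs := by
  have hsub : ∀ a ∈ bad L x, a.val ∈ ((Finset.Ico (L - x.natAbs) L : Finset ℕ) : Set ℕ) ∧ 0 ≤ x ∨
      a.val ∈ ((Finset.range x.natAbs : Finset ℕ) : Set ℕ) ∧ x < 0 := by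
    intro a ha
    by_contra hcon
    apply ha
    have hlt : a.val < L := ZMod.val_lt a
    have h1 : 0 ≤ (a.val : ℤ) + x ∧ (a.val : ℤ) + x < L := by
      push Not at hcon
      simp only [Finset.coe_Ico, Set.mem_Ico, Finset.coe_range, Set.mem_Iio] at hcon
      rcases le_or_gt 0 x with hx | hx
      · have := hcon.1
        constructor
        · positivity
        · by_contra hc
          push Not at hc
          have : x < 0 := this ⟨by omega, hlt⟩
          omega
      · have := hcon.2
        constructor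
        · by_contra hc
          push Not at hc
          have := this (by omega)
          omega
        · omega
    have e : a + (x : ZMod L) = (((a.val : ℤ) + x : ℤ) : ZMod L) := by
      push_cast
      rw [ZMod.natCast_zmod_val]
    rw [e, ZMod.val_intCast, Int.emod_eq_of_lt h1.1 h1.2]
  have hinj : Set.InjOn (fun a : ZMod L => a.val) (bad L x) :=
    fun a _ b _ hab => ZMod.val_injective L hab
  rcases le_or_gt 0 x with hx | hx
  · have h2 : Set.MapsTo (fun a : ZMod L => a.val) (bad L x)
        ((Finset.Ico (L - x.natAbs) L : Finset ℕ) : Set ℕ) := by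
      intro a ha
      rcases hsub a ha with h | h
      · exact h.1
      · omega
    have := Set.ncard_le_ncard_of_injOn _ h2 hinj (Finset.finite_toSet _)
    rw [Set.ncard_coe_finset, Nat.card_Ico] at this
    omega
  · have h2 : Set.MapsTo (fun a : ZMod L => a.val) (bad L x)
        ((Finset.range x.natAbs : Finset ℕ) : Set ℕ) := by
      intro a ha
      rcases hsub a ha with h | h
      · omega
      · exact h.1
    have := Set.ncard_le_ncard_of_injOn _ h2 hinj (Finset.finite_toSet _)
    rw [Set.ncard_coe_finset, Finset.card_range] at this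
    exact this

lemma rep_add {L : ℕ} (r : ZMod L × ZMod L × ZMod L) (x : Q) (h1 : r.1 ∉ bad L x.1)
    (h2 : r.2.1 ∉ bad L x.2.1) (h3 : r.2.2 ∉ bad L x.2.2) : rep (r + red L x) = rep r + x := by
  unfold bad at h1 h2 h3
  simp only [Set.mem_setOf_eq, not_not] at h1 h2 h3
  unfold rep red
  simp only [Prod.fst_add, Prod.snd_add]
  rw [h1, h2, h3]
  rfl

end REDB

open REDB in
theorem sig_tendsto {p : ℕ} [NeZero p] (V : Fin n → AddSubgroup Q) (f : Fin n → Q → ZMod p)
    (hf : ∀ i q v, v ∈ V i → f i (q + v) = f i q) (g h : G p V) :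
    Tendsto (fun k : ℕ =>
      (Nat.card {ω : Om p (k + 1) //
        sig V f (k + 1) (g * h) ω ≠ sig V f (k + 1) g (sig V f (k + 1) h ω)} : ℝ) /
        (Nat.card (Om p (k + 1)) : ℝ)) atTop (𝓝 0) := by
  obtain ⟨x, hx⟩ : ∃ x : Q, x = g.right.toAdd := ⟨_, rfl⟩
  obtain ⟨x', hx'⟩ : ∃ x : Q, x = h.right.toAdd := ⟨_, rfl⟩
  obtain ⟨B, hB⟩ : ∃ B : ℕ, B = x.1.natAbs + x.2.1.natAbs + x.2.2.natAbs := ⟨_, rfl⟩
  have main : ∀ k : ℕ, (Nat.card {ω : Om p (k + 1) //
        sig V f (k + 1) (g * h) ω ≠ sig V f (k + 1) g (sig V f (k + 1) h ω)} : ℝ) /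
        (Nat.card (Om p (k + 1)) : ℝ) ≤ (B : ℝ) * ((k : ℝ) + 1)⁻¹ := by
    intro k
    obtain ⟨L, hL⟩ : ∃ L, L = k + 1 := ⟨_, rfl⟩
    rw [← hL]
    haveI : NeZero L := ⟨by omega⟩
    have hgood : ∀ ω : Om p L, (ω.1 - red L x' - red L x).1 ∉ bad L x.1 →
        (ω.1 - red L x' - red L x).2.1 ∉ bad L x.2.1 →
        (ω.1 - red L x' - red L x).2.2 ∉ bad L x.2.2 →
        sig V f L (g * h) ω = sig V f L g (sig V f L h ω) := by
      intro ω h1 h2 h3
      have hr := rep_add _ x h1 h2 h3
      obtain ⟨t, s⟩ := ω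
      have e1 : t - red L x' - red L x + red L x = t - red L x' := by abel
      rw [e1] at hr
      have eright : (g * h).right.toAdd = x + x' := by
        rw [SemidirectProduct.mul_right, toAdd_mul, hx, hx']
      have eleft : (g * h).left.toAdd = g.left.toAdd +
          Finsupp.domCongr (trans V x) h.left.toAdd := by
        rw [SemidirectProduct.mul_left, toAdd_mul, hx]
        rfl
      have e2 : t - red L (x + x') = t - red L x' - red L x := by
        rw [red_add]; abel
      show (t - red L (g * h).right.toAdd,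
        s + xi V f (rep (t - red L (g * h).right.toAdd)) (g * h).left.toAdd) =
        (t - red L h.right.toAdd - red L g.right.toAdd,
          s + xi V f (rep (t - red L h.right.toAdd)) h.left.toAdd +
          xi V f (rep (t - red L h.right.toAdd - red L g.right.toAdd)) g.left.toAdd)
      rw [eright, eleft, ← hx, ← hx', e2, map_add, xi_domCongr V f hf, ← hr]
      refine Prod.ext rfl ?_
      show _ + (_ + _) = _ + _ + _
      abel
    obtain ⟨T, hT⟩ : ∃ T : Set (Om p L), T = {ω | sig V f L (g * h) ω ≠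
        sig V f L g (sig V f L h ω)} := ⟨_, rfl⟩
    have hcard : (Nat.card {ω : Om p L // sig V f L (g * h) ω ≠
        sig V f L g (sig V f L h ω)}) = T.ncard := by
      rw [hT]; rfl
    let e : Om p L → Om p L := fun ω => (ω.1 - red L x' - red L x, ω.2)
    have einj : Function.Injective e := by
      rintro ⟨a, b⟩ ⟨c, d⟩ hab
      have h1 := congrArg Prod.fst hab
      have h2 := congrArg Prod.snd hab
      simp only [e] at h1 h2
      have : a = c := by simpa using h1
      rw [this, h2]
    let U : Set (Om p L) := (((bad L x.1) ×ˢ (Set.univ : Set (ZMod L × ZMod L))) ×ˢ Set.univ) ∪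
      ((((Set.univ : Set (ZMod L)) ×ˢ ((bad L x.2.1) ×ˢ (Set.univ : Set (ZMod L)))) ×ˢ Set.univ) ∪
      (((Set.univ : Set (ZMod L)) ×ˢ ((Set.univ : Set (ZMod L)) ×ˢ (bad L x.2.2))) ×ˢ Set.univ))
    have hmaps : Set.MapsTo e T U := by
      intro ω hω
      rw [hT] at hω
      by_contra hcon
      apply hω
      simp only [U, e, Set.mem_union, Set.mem_prod, Set.mem_univ, and_true, true_and,
        not_or] at hcon
      exact hgood ω hcon.1 hcon.2.1 hcon.2.2
    have hle : T.ncard ≤ U.ncard :=
      Set.ncard_le_ncard_of_injOn e hmaps einj.injOn (Set.toFinite _)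
    have hU : U.ncard ≤ B * L ^ 2 * p := by
      have c1 := bad_card L x.1
      have c2 := bad_card L x.2.1
      have c3 := bad_card L x.2.2
      have hz : (Set.univ : Set (ZMod L)).ncard = L := by
        rw [Set.ncard_univ, Nat.card_zmod]
      have hzp : (Set.univ : Set (ZMod p)).ncard = p := by
        rw [Set.ncard_univ, Nat.card_zmod]
      have hz2 : (Set.univ : Set (ZMod L × ZMod L)).ncard = L * L := by
        rw [Set.ncard_univ, Nat.card_prod, Nat.card_zmod]
      calc U.ncard ≤ _ := Set.ncard_union_le _ _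
        _ ≤ _ := Nat.add_le_add_left (Set.ncard_union_le _ _) _
        _ = ((bad L x.1).ncard * (L * L)) * p +
            ((L * ((bad L x.2.1).ncard * L)) * p + (L * (L * (bad L x.2.2).ncard)) * p) := by
            rw [Set.ncard_prod, Set.ncard_prod, Set.ncard_prod, Set.ncard_prod, Set.ncard_prod,
              Set.ncard_prod, Set.ncard_prod, Set.ncard_prod, hz, hzp, hz2]
        _ ≤ (x.1.natAbs * (L * L)) * p +
            ((L * (x.2.1.natAbs * L)) * p + (L * (L * x.2.2.natAbs)) * p) := by gcongr
        _ = B * L ^ 2 * p := by rw [hB]; ring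
    have hOm : Nat.card (Om p L) = L ^ 3 * p := by
      rw [Nat.card_prod, Nat.card_prod, Nat.card_prod, Nat.card_zmod, Nat.card_zmod]
      ring
    have hp0 : (0:ℝ) < p := by
      have := NeZero.pos p
      exact_mod_cast this
    have hL0 : (0:ℝ) < L := by
      rw [hL]; positivity
    have hLk : ((k:ℝ) + 1) = L := by rw [hL]; push_cast; ring
    rw [hcard, hOm, hLk]
    have h9 : ((T.ncard : ℕ) : ℝ) ≤ (B : ℝ) * (L:ℝ) ^ 2 * p := by
      exact_mod_cast hle.trans hU
    push_cast
    rw [div_le_iff₀ (by positivity)]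
    calc ((T.ncard : ℕ) : ℝ) ≤ (B : ℝ) * (L:ℝ) ^ 2 * p := h9
      _ = (B : ℝ) * (L : ℝ)⁻¹ * ((L : ℝ) ^ 3 * p) := by field_simp
  refine squeeze_zero (fun k => by positivity) main ?_
  have h1 : Tendsto (fun k : ℕ => ((k : ℝ) + 1)⁻¹) atTop (𝓝 0) := by
    have := tendsto_one_div_add_atTop_nhds_zero_nat (𝕜 := ℝ)
    simpa [one_div] using this
  simpa using h1.const_mul (B : ℝ)

end Pool.Agent.H6.MS
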